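import Mathlib

set_option autoImplicit false

namespace Pool.Agent.Q19.Nim

theorem xor_add_and (x y : ℕ) : (x ^^^ y) + 2 * (x &&& y) = x + y := by
  induction x using Nat.strong_induction_on generalizing y with
  | _ x ih =>
    rcases Nat.eq_zero_or_pos x with rfl | hx
    · simp
    · have h := ih (x / 2) (by omega) (y / 2)
      have h1 : (x ^^^ y) / 2 = (x / 2) ^^^ (y / 2) := Nat.xor_div_two
      have h2 : (x &&& y) / 2 = (x / 2) &&& (y / 2) := Nat.and_div_two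
      have h3 : (x ^^^ y) % 2 = (x + y) % 2 := Nat.xor_mod_two_eq
      have h5 := Nat.and_mod_two_pow (a := x) (b := y) (n := 1)
      rw [pow_one] at h5
      rw [← h1, ← h2] at h
      generalize (x ^^^ y) = u at *
      generalize (x &&& y) = v at *
      rcases Nat.mod_two_eq_zero_or_one x with hx | hx <;>
        rcases Nat.mod_two_eq_zero_or_one y with hy | hy <;>
        rw [hx, hy] at h5
      · have h6 : v % 2 = 0 := h5
        omega
      · have h6 : v % 2 = 0 := h5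
        omega
      · have h6 : v % 2 = 0 := h5
        omega
      · have h6 : v % 2 = 1 := h5
        omega

/-- The sequence `a` is 2-regular: the `ℤ`-module generated by its 2-kernel is finitely
generated. -/
def Regular (a : ℕ → ℤ) : Prop :=
  (Submodule.span ℤ {b : ℕ → ℤ | ∃ e r : ℕ, r < 2 ^ e ∧ b = fun n => a (2 ^ e * n + r)}).FG

theorem regular_iff (a : ℕ → ℤ) : Regular a ↔ ∃ s : Set (ℕ → ℤ), s.Finite ∧
    ∀ e r : ℕ, r < 2 ^ e → (fun n => a (2 ^ e * n + r)) ∈ Submodule.span ℤ s := by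
  constructor
  · rintro ⟨S, hS⟩
    refine ⟨S, S.finite_toSet, fun e r hr => ?_⟩
    rw [hS]
    exact Submodule.subset_span ⟨e, r, hr, rfl⟩
  · rintro ⟨s, hs, h⟩
    have : IsNoetherian ℤ (Submodule.span ℤ s) := isNoetherian_span_of_finite ℤ hs
    apply Submodule.FG.of_le_of_isNoetherian (T := Submodule.span ℤ s)
    rw [Submodule.span_le]
    rintro _ ⟨e, r, hr, rfl⟩
    exact h e r hr

theorem Regular.add_sub {a b c : ℕ → ℤ} (ha : Regular a) (hb : Regular b) (hc : Regular c) :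
    Regular fun n => a n + b n - c n := by
  rw [regular_iff] at *
  obtain ⟨s1, hs1, h1⟩ := ha
  obtain ⟨s2, hs2, h2⟩ := hb
  obtain ⟨s3, hs3, h3⟩ := hc
  refine ⟨s1 ∪ s2 ∪ s3, (hs1.union hs2).union hs3, fun e r hr => ?_⟩
  have e1 := Submodule.span_mono (R := ℤ) (by intro x hx; exact Or.inl (Or.inl hx) :
    s1 ⊆ s1 ∪ s2 ∪ s3) (h1 e r hr)
  have e2 := Submodule.span_mono (R := ℤ) (by intro x hx; exact Or.inl (Or.inr hx) :
    s2 ⊆ s1 ∪ s2 ∪ s3) (h2 e r hr)
  have e3 := Submodule.span_mono (R := ℤ) (by intro x hx; exact Or.inr hx :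
    s3 ⊆ s1 ∪ s2 ∪ s3) (h3 e r hr)
  exact Submodule.sub_mem _ (Submodule.add_mem _ e1 e2) e3

/-- the squares -/
def a0 (n : ℕ) : ℕ := n ^ 2

/-- the largest power of two not exceeding `n` (and `1` for `n = 0`) -/
def b0 (n : ℕ) : ℕ := 2 ^ Nat.log 2 n

theorem regular_a0 : Regular fun n => (a0 n : ℤ) := by
  rw [regular_iff]
  refine ⟨{fun n : ℕ => (n : ℤ) ^ 2, fun n : ℕ => (n : ℤ), fun _ : ℕ => (1 : ℤ)}, by simp,
    fun e r _ => ?_⟩
  set V := Submodule.span ℤ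
    ({fun n : ℕ => (n : ℤ) ^ 2, fun n : ℕ => (n : ℤ), fun _ : ℕ => (1 : ℤ)} : Set (ℕ → ℤ))
  have h1 : (fun n : ℕ => (n : ℤ) ^ 2) ∈ V := Submodule.subset_span (by simp)
  have h2 : (fun n : ℕ => (n : ℤ)) ∈ V := Submodule.subset_span (by simp)
  have h3 : (fun _ : ℕ => (1 : ℤ)) ∈ V := Submodule.subset_span (by simp)
  have h4 : (fun n => ((a0 (2 ^ e * n + r) : ℕ) : ℤ)) =
      (2 ^ e * 2 ^ e : ℤ) • (fun n : ℕ => (n : ℤ) ^ 2) + (2 * 2 ^ e * r : ℤ) • (fun n : ℕ => (n : ℤ)) +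
        (r ^ 2 : ℤ) • (fun _ : ℕ => (1 : ℤ)) := by
    funext n
    simp only [a0, Pi.add_apply, Pi.smul_apply, smul_eq_mul]
    push_cast
    ring
  rw [h4]
  exact V.add_mem (V.add_mem (V.smul_mem _ h1) (V.smul_mem _ h2)) (V.smul_mem _ h3)

theorem b0_kernel (e n r : ℕ) (hn : n ≠ 0) (hr : r < 2 ^ e) :
    b0 (2 ^ e * n + r) = 2 ^ e * b0 n := by
  unfold b0
  rw [← pow_add]
  congr 1
  rw [Nat.log_eq_iff]
  · have h1 := Nat.pow_log_le_self 2 hn
    have h2 := Nat.lt_pow_succ_log_self (b := 2) (by norm_num) n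
    constructor
    · calc 2 ^ (e + Nat.log 2 n) = 2 ^ e * 2 ^ Nat.log 2 n := pow_add _ _ _
        _ ≤ 2 ^ e * n := Nat.mul_le_mul_left _ h1
        _ ≤ _ := Nat.le_add_right _ _
    · calc 2 ^ e * n + r < 2 ^ e * n + 2 ^ e := by omega
        _ = 2 ^ e * (n + 1) := by ring
        _ ≤ 2 ^ e * 2 ^ (Nat.log 2 n + 1) := Nat.mul_le_mul_left _ h2
        _ = _ := by rw [← pow_add, add_assoc]
  · right
    refine ⟨by norm_num, ?_⟩
    have : 0 < 2 ^ e * n := Nat.mul_pos (by positivity) (Nat.pos_of_ne_zero hn)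
    omega

theorem regular_b0 : Regular fun n => (b0 n : ℤ) := by
  rw [regular_iff]
  refine ⟨{fun n => (b0 n : ℤ), fun n => if n = 0 then 1 else 0}, by simp, fun e r hr => ?_⟩
  set V := Submodule.span ℤ
    ({fun n => (b0 n : ℤ), fun n => if n = 0 then 1 else 0} : Set (ℕ → ℤ))
  have h1 : (fun n : ℕ => (b0 n : ℤ)) ∈ V := Submodule.subset_span (by simp)
  have h2 : (fun n : ℕ => (if n = 0 then 1 else 0 : ℤ)) ∈ V := Submodule.subset_span (by simp)
  have h4 : (fun n => ((b0 (2 ^ e * n + r) : ℕ) : ℤ)) =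
      (2 ^ e : ℤ) • (fun n : ℕ => (b0 n : ℤ)) +
        ((b0 r : ℤ) - 2 ^ e) • (fun n : ℕ => (if n = 0 then 1 else 0 : ℤ)) := by
    funext n
    simp only [Pi.add_apply, Pi.smul_apply, smul_eq_mul]
    by_cases hn : n = 0
    · subst hn
      simp [b0]
    · rw [b0_kernel e n r hn hr, if_neg hn]
      push_cast
      ring
  rw [h4]
  exact V.add_mem (V.smul_mem _ h1) (V.smul_mem _ h2)

/-- the key computation -/
theorem key (s s' : ℕ) (h : s < 2 * s') :
    a0 (2 ^ (2 * s') + 2 ^ s) &&& b0 (2 ^ (2 * s') + 2 ^ s) =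
      if s = s' then 2 ^ (2 * s') else 0 := by
  have hlog : Nat.log 2 (2 ^ (2 * s') + 2 ^ s) = 2 * s' := by
    rw [Nat.log_eq_iff]
    · constructor
      · exact Nat.le_add_right _ _
      · have : 2 ^ s < 2 ^ (2 * s') := Nat.pow_lt_pow_right (by norm_num) h
        rw [pow_succ]
        omega
    · right
      refine ⟨by norm_num, ?_⟩
      have h7 : 0 < 2 ^ (2 * s') := by positivity
      have h8 : 0 < 2 ^ s := by positivity
      generalize 2 ^ (2 * s') = u at *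
      generalize 2 ^ s = w at *
      omega
  unfold b0 a0
  rw [hlog, Nat.and_two_pow]
  obtain ⟨k, hk⟩ : ∃ k, 2 * s' = k + 1 := ⟨2 * s' - 1, by omega⟩
  have hsq : (2 ^ (2 * s') + 2 ^ s) ^ 2 = 2 ^ (2 * s' + 1) * (2 ^ k + 2 ^ s) + 2 ^ (2 * s) := by
    rw [hk]
    ring
  rcases le_or_gt s s' with hs | hs
  · rw [hsq, Nat.testBit_two_pow_mul_add _ (Nat.pow_lt_pow_right (by norm_num) (by omega)),
      if_pos (by omega), Nat.testBit_two_pow]
    by_cases h1 : s = s'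
    · subst h1; simp
    · have h2 : ¬ (2 * s = 2 * s') := by omega
      simp [h1, h2]
  · have h4 : 2 ^ (2 * s' + 1) * 2 ^ (2 * s - 2 * s' - 1) = 2 ^ (2 * s) := by
      rw [← pow_add]
      congr 1
      omega
    have h3 : (2 ^ (2 * s') + 2 ^ s) ^ 2 =
        2 ^ (2 * s' + 1) * ((2 ^ k + 2 ^ s) + 2 ^ (2 * s - 2 * s' - 1)) + 0 := by
      rw [hsq, mul_add _ (2 ^ k + 2 ^ s), h4, add_zero]
    rw [h3, Nat.testBit_two_pow_mul_add _ (by positivity), if_pos (by omega),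
      if_neg (by omega : ¬ s = s')]
    simp

theorem not_regular_xor : ¬ Regular fun n => ((a0 n ^^^ b0 n : ℕ) : ℤ) := by
  intro hc
  have ht := Regular.add_sub regular_a0 regular_b0 hc
  have ht2 : (fun n => (a0 n : ℤ) + (b0 n : ℤ) - ((a0 n ^^^ b0 n : ℕ) : ℤ)) =
      fun n => 2 * ((a0 n &&& b0 n : ℕ) : ℤ) := by
    funext n
    have := xor_add_and (a0 n) (b0 n)
    have h2 : ((a0 n ^^^ b0 n : ℕ) : ℤ) + 2 * ((a0 n &&& b0 n : ℕ) : ℤ) = (a0 n : ℤ) + b0 n := by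
      exact_mod_cast this
    linarith
  rw [ht2, regular_iff] at ht
  obtain ⟨S, hS, h⟩ := ht
  have : Fintype S := hS.fintype
  set J := Fintype.card S + 1 with hJ
  let v : Fin J → (ℕ → ℤ) := fun i n =>
    2 * ((a0 (2 ^ (2 * J) * n + 2 ^ (J + i : ℕ)) &&& b0 (2 ^ (2 * J) * n + 2 ^ (J + i : ℕ)) : ℕ) : ℤ)
  have hv : Set.range v ⊆ (Submodule.span ℤ S : Set (ℕ → ℤ)) := by
    rintro _ ⟨i, rfl⟩
    apply h (2 * J) (2 ^ (J + i : ℕ))
    apply Nat.pow_lt_pow_right (by norm_num)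
    have := i.2
    omega
  have hval : ∀ i j : Fin J, v i (2 ^ (2 * (j : ℕ))) =
      if i = j then 2 * 2 ^ (2 * (J + j : ℕ)) else 0 := by
    intro i j
    have h1 : 2 ^ (2 * J) * 2 ^ (2 * (j : ℕ)) = 2 ^ (2 * (J + j : ℕ)) := by
      rw [← pow_add]; congr 1; ring
    change 2 * ((a0 (2 ^ (2 * J) * 2 ^ (2 * (j : ℕ)) + 2 ^ (J + i : ℕ)) &&&
      b0 (2 ^ (2 * J) * 2 ^ (2 * (j : ℕ)) + 2 ^ (J + i : ℕ)) : ℕ) : ℤ) = _
    have h2 := i.2
    rw [h1, key (J + i) (J + j) (by omega)]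
    by_cases hij : i = j
    · subst hij; simp
    · have : ¬ (J + (i : ℕ) = J + (j : ℕ)) := by
        intro h3
        exact hij (Fin.ext (by omega))
      rw [if_neg this, if_neg hij]
      simp
  have hli : LinearIndependent ℤ v := by
    rw [Fintype.linearIndependent_iff]
    intro g hg j
    have h1 := congrFun hg (2 ^ (2 * (j : ℕ)))
    rw [Finset.sum_apply] at h1
    simp only [Pi.smul_apply, hval, smul_eq_mul, mul_ite, mul_zero, Pi.zero_apply] at h1
    rw [Finset.sum_ite_eq' Finset.univ j] at h1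
    simp only [Finset.mem_univ, if_true] at h1
    rcases mul_eq_zero.1 h1 with h2 | h2
    · exact h2
    · exfalso
      have : (2 : ℤ) * 2 ^ (2 * (J + j : ℕ)) ≠ 0 := by positivity
      exact this h2
  have hcard := linearIndependent_le_span_aux' v hli S hv
  rw [Fintype.card_fin] at hcard
  omega

/-- A two-dimensional array is 2-regular. -/
def ArrayRegular (c : ℕ → ℕ → ℤ) : Prop :=
  ∃ (s : ℕ) (c' : Fin s → ℕ → ℕ → ℤ), ∀ e r t : ℕ, r < 2 ^ e → t < 2 ^ e →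
    ∃ k : Fin s → ℤ, ∀ m n : ℕ, c (2 ^ e * m + r) (2 ^ e * n + t) = ∑ i, k i * c' i m n

theorem ArrayRegular.diagonal {c : ℕ → ℕ → ℤ} (h : ArrayRegular c) : Regular fun n => c n n := by
  obtain ⟨s, c', hc⟩ := h
  rw [regular_iff]
  refine ⟨Set.range fun i n => c' i n n, Set.finite_range _, fun e r hr => ?_⟩
  obtain ⟨k, hk⟩ := hc e r r hr hr
  have : (fun n => c (2 ^ e * n + r) (2 ^ e * n + r)) = ∑ i, k i • (fun n => c' i n n) := by
    funext n
    rw [hk, Finset.sum_apply]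
    rfl
  rw [this]
  exact Submodule.sum_mem _ fun i _ => Submodule.smul_mem _ _ (Submodule.subset_span ⟨i, rfl⟩)

end Pool.Agent.Q19.Nim
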